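import Pool.Agent.U337.EM.Stm

/-!
# Project EM, package C: transfer of semilinear maps along an isomorphism of enveloping algebras
-/

set_option autoImplicit false

open MvPolynomial

namespace Pool.Agent.U669.EM

open Pool.Agent.U337.EM

attribute [local instance 100] LieRing.ofAssociativeRing

section basics

variable {F : Type} [Field F] {L : Type} [LieRing L] [LieAlgebra F L] {d : ℕ}


theorem aeval_lf (ab : L →ₗ[F] (Fin d → F)) {B : Type} [CommRing B] [Algebra F B] (κ : Fin d → B)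
    (x : L) : aeval κ (lf ab x) = ∑ i, ab x i • κ i := by
  unfold lf
  rw [map_sum]
  refine Finset.sum_congr rfl fun i _ => ?_
  rw [map_mul, aeval_C, aeval_X, Algebra.smul_def]

theorem ab_lie {ab : L →ₗ[F] (Fin d → F)} (hab : IsAb ab) (x y : L) : ab ⁅x, y⁆ = 0 :=
  (hab.2 _).2 (Submodule.subset_span ⟨x, y, rfl⟩)

theorem exists_w {ab : L →ₗ[F] (Fin d → F)} (hab : IsAb ab) :
    ∃ w : Fin d → L, ∀ i, ab (w i) = Pi.single i 1 := by
  choose w hw using fun i : Fin d => hab.1 (Pi.single i 1)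
  exact ⟨w, hw⟩

theorem van {ab : L →ₗ[F] (Fin d → F)} (hab : IsAb ab) {w : Fin d → L}
    (hw : ∀ i, ab (w i) = Pi.single i 1) {E : Type} [AddCommGroup E] [Module F E] (l : L →ₗ[F] E)
    (hl : ∀ x y : L, l ⁅x, y⁆ = 0) (x : L) : l x = ∑ i, ab x i • l (w i) := by
  have h1 : ab (x - ∑ i, ab x i • w i) = 0 := by
    rw [map_sub, map_sum]
    have : ∑ i, ab (ab x i • w i) = ab x := by
      funext j
      simp only [map_smul, hw, Finset.sum_apply, Pi.smul_apply, smul_eq_mul, Pi.single_apply]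
      simp
    rw [this, sub_self]
  have h2 := (hab.2 _).1 h1
  have h3 : Submodule.span F {z : L | ∃ a b : L, ⁅a, b⁆ = z} ≤ LinearMap.ker l := by
    rw [Submodule.span_le]
    rintro z ⟨a, b, rfl⟩
    exact hl a b
  have h4 : l (x - ∑ i, ab x i • w i) = 0 := h3 h2
  rw [map_sub, map_sum, sub_eq_zero] at h4
  rw [h4]
  exact Finset.sum_congr rfl fun i _ => map_smul _ _ _

theorem char_lie {B : Type} [CommRing B] [Algebra F B] (χ : UniversalEnvelopingAlgebra F L →ₐ[F] B)
    (x y : L) : χ (UniversalEnvelopingAlgebra.ι F ⁅x, y⁆) = 0 := by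
  rw [LieHom.map_lie, LieRing.of_associative_ring_bracket, map_sub, map_mul, map_mul, mul_comm,
    sub_self]

theorem char_ext {B : Type} [CommRing B] [Algebra F B] {χ χ' : UniversalEnvelopingAlgebra F L →ₐ[F] B}
    (h : ∀ x, χ (UniversalEnvelopingAlgebra.ι F x) = χ' (UniversalEnvelopingAlgebra.ι F x)) : χ = χ' := by
  apply UniversalEnvelopingAlgebra.hom_ext
  ext x
  exact h x

/-- the value of a character on `L` -/
theorem char_val {ab : L →ₗ[F] (Fin d → F)} (hab : IsAb ab) {w : Fin d → L}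
    (hw : ∀ i, ab (w i) = Pi.single i 1) {B : Type} [CommRing B] [Algebra F B]
    (χ : UniversalEnvelopingAlgebra F L →ₐ[F] B) (x : L) :
    χ (UniversalEnvelopingAlgebra.ι F x) = aeval (fun i => χ (UniversalEnvelopingAlgebra.ι F (w i))) (lf ab x) := by
  rw [aeval_lf]
  exact van hab hw (χ.toLinearMap ∘ₗ (UniversalEnvelopingAlgebra.ι F : L →ₗ⁅F⁆ UniversalEnvelopingAlgebra F L).toLinearMap)
    (fun x y => char_lie χ x y) x

/-- characters with given values -/
theorem exists_char {ab : L →ₗ[F] (Fin d → F)} (hab : IsAb ab) {B : Type} [CommRing B] [Algebra F B]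
    (a : Fin d → B) : ∃ χ : UniversalEnvelopingAlgebra F L →ₐ[F] B,
      ∀ x, χ (UniversalEnvelopingAlgebra.ι F x) = aeval a (lf ab x) := by
  let g : L →ₗ⁅F⁆ B :=
    { toFun := fun x => ∑ i, ab x i • a i
      map_add' := fun x y => by simp [add_smul, Finset.sum_add_distrib]
      map_smul' := fun r x => by simp [Finset.smul_sum, mul_smul]
      map_lie' := fun {x y} => by
        rw [LieRing.of_associative_ring_bracket, mul_comm, sub_self, ab_lie hab]
        simp }
  refine ⟨UniversalEnvelopingAlgebra.lift F g, fun x => ?_⟩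
  rw [UniversalEnvelopingAlgebra.lift_ι_apply, aeval_lf]
  rfl

/-- derivations -/
def IsDer {B N : Type} [CommRing B] [Algebra F B] [AddCommGroup N] [Module F N] [Module B N]
    (χ θ : UniversalEnvelopingAlgebra F L →ₐ[F] B)
    (δ : UniversalEnvelopingAlgebra F L →ₗ[F] N) : Prop :=
  ∀ u v, δ (u * v) = χ u • δ v + θ v • δ u

theorem der_lie {B N : Type} [CommRing B] [Algebra F B] [AddCommGroup N] [Module F N] [Module B N]
    {χ θ : UniversalEnvelopingAlgebra F L →ₐ[F] B}
    {δ : UniversalEnvelopingAlgebra F L →ₗ[F] N} (h : IsDer χ θ δ) (x y : L) :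
    δ (UniversalEnvelopingAlgebra.ι F ⁅x, y⁆) = (χ (UniversalEnvelopingAlgebra.ι F x) - θ (UniversalEnvelopingAlgebra.ι F x)) • δ (UniversalEnvelopingAlgebra.ι F y) -
      (χ (UniversalEnvelopingAlgebra.ι F y) - θ (UniversalEnvelopingAlgebra.ι F y)) • δ (UniversalEnvelopingAlgebra.ι F x) := by
  rw [LieHom.map_lie, LieRing.of_associative_ring_bracket, map_sub, h, h, sub_smul, sub_smul]
  abel

/-- from derivations to semilinear maps on the Fox module -/
theorem fromDer {ab : L →ₗ[F] (Fin d → F)} {M : Type} [AddCommGroup M] [Module F M]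
    [Module (Sy F d) M] [IsScalarTower F (Sy F d) M] (fL : Fox ab M)
    {B N : Type} [CommRing B] [Algebra F B] [AddCommGroup N] [Module F N] [Module B N]
    [IsScalarTower F B N] {χ θ : UniversalEnvelopingAlgebra F L →ₐ[F] B} {κ : Fin d → B}
    (hκ : ∀ x, aeval κ (lf ab x) = θ (UniversalEnvelopingAlgebra.ι F x) - χ (UniversalEnvelopingAlgebra.ι F x))
    {δ : UniversalEnvelopingAlgebra F L →ₗ[F] N} (h : IsDer χ θ δ) :
    ∃ β : M →ₗ[F] N, (∀ (s : Sy F d) (m : M), β (s • m) = aeval κ s • β m) ∧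
      ∀ x, β (fL.io x) = δ (UniversalEnvelopingAlgebra.ι F x) := by
  obtain ⟨β, h1, h2⟩ := fL.h3 B N κ
    (δ ∘ₗ (UniversalEnvelopingAlgebra.ι F : L →ₗ⁅F⁆ UniversalEnvelopingAlgebra F L).toLinearMap) (fun x y => by
      have h2 := der_lie h x y
      rw [hκ, hκ]
      show δ (UniversalEnvelopingAlgebra.ι F ⁅x, y⁆) = (θ (UniversalEnvelopingAlgebra.ι F y) - χ (UniversalEnvelopingAlgebra.ι F y)) • δ (UniversalEnvelopingAlgebra.ι F x) -
        (θ (UniversalEnvelopingAlgebra.ι F x) - χ (UniversalEnvelopingAlgebra.ι F x)) • δ (UniversalEnvelopingAlgebra.ι F y)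
      rw [h2, sub_smul, sub_smul, sub_smul, sub_smul]
      abel)
  exact ⟨β, h1, fun x => h2 x⟩

/-- from semilinear maps to derivations -/
theorem toDer (hA : S_A) {ab : L →ₗ[F] (Fin d → F)} {M : Type} [AddCommGroup M] [Module F M]
    [Module (Sy F d) M] [IsScalarTower F (Sy F d) M] (fL : Fox ab M)
    {B N : Type} [CommRing B] [Algebra F B] [AddCommGroup N] [Module F N] [Module B N]
    [IsScalarTower F B N] {χ θ : UniversalEnvelopingAlgebra F L →ₐ[F] B} {κ : Fin d → B}
    (hκ : ∀ x, aeval κ (lf ab x) = θ (UniversalEnvelopingAlgebra.ι F x) - χ (UniversalEnvelopingAlgebra.ι F x))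
    {β : M →ₗ[F] N} (hβ : ∀ (s : Sy F d) (m : M), β (s • m) = aeval κ s • β m) :
    ∃ δ : UniversalEnvelopingAlgebra F L →ₗ[F] N, IsDer χ θ δ ∧
      ∀ x, δ (UniversalEnvelopingAlgebra.ι F x) = β (fL.io x) := by
  refine (hA F L B N χ θ).1 (β ∘ₗ fL.io) fun x y => ?_
  show β (fL.io ⁅x, y⁆) = _
  rw [fL.h2, map_sub, hβ, hβ, hκ, hκ, sub_smul, sub_smul, sub_smul, sub_smul]
  show _ = (χ (UniversalEnvelopingAlgebra.ι F x) • β (fL.io y) - θ (UniversalEnvelopingAlgebra.ι F x) • β (fL.io y)) -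
    (χ (UniversalEnvelopingAlgebra.ι F y) • β (fL.io x) - θ (UniversalEnvelopingAlgebra.ι F y) • β (fL.io x))
  abel

/-- uniqueness of derivations -/
theorem der_ext (hA : S_A) {B N : Type} [CommRing B] [Algebra F B] [AddCommGroup N] [Module F N]
    [Module B N] [IsScalarTower F B N] {χ θ : UniversalEnvelopingAlgebra F L →ₐ[F] B}
    {δ δ' : UniversalEnvelopingAlgebra F L →ₗ[F] N} (h : IsDer χ θ δ) (h' : IsDer χ θ δ')
    (he : ∀ x, δ (UniversalEnvelopingAlgebra.ι F x) = δ' (UniversalEnvelopingAlgebra.ι F x)) : δ = δ' :=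
  (hA F L B N χ θ).2 δ δ' h h' he

/-- uniqueness of semilinear maps on the Fox module -/
theorem fox_ext {ab : L →ₗ[F] (Fin d → F)} {M : Type} [AddCommGroup M] [Module F M]
    [Module (Sy F d) M] [IsScalarTower F (Sy F d) M] (fL : Fox ab M)
    {B N : Type} [CommRing B] [Algebra F B] [AddCommGroup N] [Module B N]
    {κ : Fin d → B} {β β' : M →+ N} (hβ : ∀ (s : Sy F d) (m : M), β (s • m) = aeval κ s • β m)
    (hβ' : ∀ (s : Sy F d) (m : M), β' (s • m) = aeval κ s • β' m)
    (he : ∀ x, β (fL.io x) = β' (fL.io x)) (m : M) : β m = β' m := by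
  have hm : m ∈ Submodule.span (Sy F d) (Set.range fL.io) := by rw [fL.h4]; trivial
  induction hm using Submodule.span_induction with
  | mem x hx => obtain ⟨y, rfl⟩ := hx; exact he y
  | zero => rw [map_zero, map_zero]
  | add x y _ _ hx hy => rw [map_add, map_add, hx, hy]
  | smul s x _ hx => rw [hβ, hβ', hx]

/-- the difference of two characters -/
theorem diff_der {B : Type} [CommRing B] [Algebra F B]
    (χ θ : UniversalEnvelopingAlgebra F L →ₐ[F] B) :
    IsDer χ θ (θ.toLinearMap - χ.toLinearMap) := by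
  intro u v
  simp only [LinearMap.sub_apply, AlgHom.toLinearMap_apply, map_mul, smul_eq_mul]
  ring

end basics


section transfer

variable {F : Type} [Field F] {L H : Type} [LieRing L] [LieAlgebra F L] [LieRing H] [LieAlgebra F H]
  {d : ℕ}


theorem aeval_sub' (ab : L →ₗ[F] (Fin d → F)) {B : Type} [CommRing B] [Algebra F B] (a b : Fin d → B)
    (x : L) : aeval (fun i => b i - a i) (lf ab x) = aeval b (lf ab x) - aeval a (lf ab x) := by
  rw [aeval_lf, aeval_lf, aeval_lf, ← Finset.sum_sub_distrib]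
  exact Finset.sum_congr rfl fun i _ => smul_sub _ _ _

theorem char_bar {abH : H →ₗ[F] (Fin d → F)} {bar : UniversalEnvelopingAlgebra F H →ₐ[F] Sy F d}
    (hbar : ∀ h, bar (UniversalEnvelopingAlgebra.ι F h) = lf abH h) {B : Type} [CommRing B] [Algebra F B] {a : Fin d → B}
    {χ : UniversalEnvelopingAlgebra F H →ₐ[F] B} (hχ : ∀ h, χ (UniversalEnvelopingAlgebra.ι F h) = aeval a (lf abH h)) :
    χ = (aeval a).comp bar := by
  apply char_ext
  intro h
  rw [hχ, AlgHom.comp_apply, hbar]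

theorem char_phi {abL : L →ₗ[F] (Fin d → F)} {abH : H →ₗ[F] (Fin d → F)} (hL : IsAb abL)
    {w : Fin d → L} (hw : ∀ i, abL (w i) = Pi.single i 1)
    (φ : UniversalEnvelopingAlgebra F L ≃ₐ[F] UniversalEnvelopingAlgebra F H)
    {bar : UniversalEnvelopingAlgebra F H →ₐ[F] Sy F d} (hbar : ∀ h, bar (UniversalEnvelopingAlgebra.ι F h) = lf abH h)
    {B : Type} [CommRing B] [Algebra F B] {a : Fin d → B}
    {χ : UniversalEnvelopingAlgebra F H →ₐ[F] B} (hχ : ∀ h, χ (UniversalEnvelopingAlgebra.ι F h) = aeval a (lf abH h)) (x : L) :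
    χ (φ (UniversalEnvelopingAlgebra.ι F x)) = aeval (fun i => aeval a (bar (φ (UniversalEnvelopingAlgebra.ι F (w i))))) (lf abL x) := by
  have h1 := char_val hL hw (χ.comp (φ : UniversalEnvelopingAlgebra F L →ₐ[F]
    UniversalEnvelopingAlgebra F H)) x
  have h2 := char_bar hbar hχ
  have h3 : ∀ i, χ (φ (UniversalEnvelopingAlgebra.ι F (w i))) = aeval a (bar (φ (UniversalEnvelopingAlgebra.ι F (w i)))) := fun i => by
    conv_lhs => rw [h2]
    rfl
  simp only [← h3]
  exact h1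

theorem der_comp {B N : Type} [CommRing B] [Algebra F B] [AddCommGroup N] [Module F N] [Module B N]
    {χ θ : UniversalEnvelopingAlgebra F H →ₐ[F] B} {δ : UniversalEnvelopingAlgebra F H →ₗ[F] N}
    (h : IsDer χ θ δ) (φ : UniversalEnvelopingAlgebra F L →ₐ[F] UniversalEnvelopingAlgebra F H) :
    IsDer (χ.comp φ) (θ.comp φ) (δ ∘ₗ φ.toLinearMap) := by
  intro u v
  simp only [LinearMap.comp_apply, AlgHom.toLinearMap_apply, map_mul, AlgHom.comp_apply]
  exact h _ _

theorem der_semi {B N B' N' : Type} [CommRing B] [Algebra F B] [AddCommGroup N] [Module F N]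
    [Module B N] [CommRing B'] [Algebra F B'] [AddCommGroup N'] [Module F N'] [Module B' N']
    {χ θ : UniversalEnvelopingAlgebra F H →ₐ[F] B} {δ : UniversalEnvelopingAlgebra F H →ₗ[F] N}
    (h : IsDer χ θ δ) {ψ : B →ₐ[F] B'} {P : N →ₗ[F] N'} (hP : ∀ (b : B) n, P (b • n) = ψ b • P n) :
    IsDer (ψ.comp χ) (ψ.comp θ) (P ∘ₗ δ) := by
  intro u v
  simp only [LinearMap.comp_apply, AlgHom.comp_apply]
  rw [h, map_add, hP, hP]

theorem der_ext_phi (hA : S_A) (φ : UniversalEnvelopingAlgebra F L ≃ₐ[F] UniversalEnvelopingAlgebra F H)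
    {B N : Type} [CommRing B] [Algebra F B] [AddCommGroup N] [Module F N]
    [Module B N] [IsScalarTower F B N] {χ θ : UniversalEnvelopingAlgebra F H →ₐ[F] B}
    {δ δ' : UniversalEnvelopingAlgebra F H →ₗ[F] N} (h : IsDer χ θ δ) (h' : IsDer χ θ δ')
    (he : ∀ x, δ (φ (UniversalEnvelopingAlgebra.ι F x)) = δ' (φ (UniversalEnvelopingAlgebra.ι F x))) : δ = δ' := by
  have h1 := der_ext hA (der_comp h (φ : UniversalEnvelopingAlgebra F L →ₐ[F]
    UniversalEnvelopingAlgebra F H)) (der_comp h' (φ : UniversalEnvelopingAlgebra F L →ₐ[F]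
    UniversalEnvelopingAlgebra F H)) he
  refine LinearMap.ext fun v => ?_
  have h2 := LinearMap.congr_fun h1 (φ.symm v)
  have h3 : φ (φ.symm v) = v := φ.apply_symm_apply v
  have h4 : δ (φ (φ.symm v)) = δ' (φ (φ.symm v)) := h2
  rwa [h3] at h4

variable {ML MH : Type} [AddCommGroup ML] [Module F ML] [Module (Sy F d) ML]
  [IsScalarTower F (Sy F d) ML] [AddCommGroup MH] [Module F MH] [Module (Sy F d) MH]
  [IsScalarTower F (Sy F d) MH]

theorem fwd (hA : S_A) {abL : L →ₗ[F] (Fin d → F)} {abH : H →ₗ[F] (Fin d → F)} (hL : IsAb abL)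
    {w : Fin d → L} (hw : ∀ i, abL (w i) = Pi.single i 1)
    (φ : UniversalEnvelopingAlgebra F L ≃ₐ[F] UniversalEnvelopingAlgebra F H)
    {bar : UniversalEnvelopingAlgebra F H →ₐ[F] Sy F d} (hbar : ∀ h, bar (UniversalEnvelopingAlgebra.ι F h) = lf abH h)
    (fL : Fox abL ML) (fH : Fox abH MH) {B N : Type} [CommRing B] [Algebra F B] [AddCommGroup N]
    [Module F N] [Module B N] [IsScalarTower F B N] {a b : Fin d → B}
    {χ θ : UniversalEnvelopingAlgebra F H →ₐ[F] B} (hχ : ∀ h, χ (UniversalEnvelopingAlgebra.ι F h) = aeval a (lf abH h))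
    (hθ : ∀ h, θ (UniversalEnvelopingAlgebra.ι F h) = aeval b (lf abH h)) {β : MH →ₗ[F] N}
    (hβ : ∀ (s : Sy F d) (m : MH), β (s • m) = aeval (fun i => b i - a i) s • β m) :
    ∃ (δ : UniversalEnvelopingAlgebra F H →ₗ[F] N) (β' : ML →ₗ[F] N), IsDer χ θ δ ∧
      (∀ h, δ (UniversalEnvelopingAlgebra.ι F h) = β (fH.io h)) ∧ (∀ x, β' (fL.io x) = δ (φ (UniversalEnvelopingAlgebra.ι F x))) ∧
      ∀ (s : Sy F d) (m : ML), β' (s • m) = aeval (fun i => aeval b (bar (φ (UniversalEnvelopingAlgebra.ι F (w i)))) -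
        aeval a (bar (φ (UniversalEnvelopingAlgebra.ι F (w i))))) s • β' m := by
  obtain ⟨δ, h1, h2⟩ := toDer hA fH (χ := χ) (θ := θ) (κ := fun i => b i - a i)
    (fun x => by rw [aeval_sub', hχ, hθ]) hβ
  obtain ⟨β', h3, h4⟩ := fromDer fL (κ := fun i => aeval b (bar (φ (UniversalEnvelopingAlgebra.ι F (w i)))) -
        aeval a (bar (φ (UniversalEnvelopingAlgebra.ι F (w i))))) (χ := χ.comp (φ : UniversalEnvelopingAlgebra F L →ₐ[F]
        UniversalEnvelopingAlgebra F H)) (θ := θ.comp (φ : UniversalEnvelopingAlgebra F L →ₐ[F]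
        UniversalEnvelopingAlgebra F H)) (fun x => by
          rw [aeval_sub']
          exact congrArg₂ (· - ·) (char_phi hL hw φ hbar hθ x).symm
            (char_phi hL hw φ hbar hχ x).symm) (der_comp h1 _)
  exact ⟨δ, β', h1, h2, h4, h3⟩

theorem bwd (hA : S_A) {abL : L →ₗ[F] (Fin d → F)} {abH : H →ₗ[F] (Fin d → F)} (hL : IsAb abL)
    {w : Fin d → L} (hw : ∀ i, abL (w i) = Pi.single i 1)
    (φ : UniversalEnvelopingAlgebra F L ≃ₐ[F] UniversalEnvelopingAlgebra F H)
    {bar : UniversalEnvelopingAlgebra F H →ₐ[F] Sy F d} (hbar : ∀ h, bar (UniversalEnvelopingAlgebra.ι F h) = lf abH h)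
    (fL : Fox abL ML) (fH : Fox abH MH) {B N : Type} [CommRing B] [Algebra F B] [AddCommGroup N]
    [Module F N] [Module B N] [IsScalarTower F B N] {a b : Fin d → B}
    {χ θ : UniversalEnvelopingAlgebra F H →ₐ[F] B} (hχ : ∀ h, χ (UniversalEnvelopingAlgebra.ι F h) = aeval a (lf abH h))
    (hθ : ∀ h, θ (UniversalEnvelopingAlgebra.ι F h) = aeval b (lf abH h)) {β' : ML →ₗ[F] N}
    (hβ' : ∀ (s : Sy F d) (m : ML), β' (s • m) = aeval (fun i => aeval b (bar (φ (UniversalEnvelopingAlgebra.ι F (w i)))) -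
        aeval a (bar (φ (UniversalEnvelopingAlgebra.ι F (w i))))) s • β' m) :
    ∃ (δ : UniversalEnvelopingAlgebra F H →ₗ[F] N) (β : MH →ₗ[F] N), IsDer χ θ δ ∧
      (∀ x, δ (φ (UniversalEnvelopingAlgebra.ι F x)) = β' (fL.io x)) ∧ (∀ h, β (fH.io h) = δ (UniversalEnvelopingAlgebra.ι F h)) ∧
      ∀ (s : Sy F d) (m : MH), β (s • m) = aeval (fun i => b i - a i) s • β m := by
  obtain ⟨δ', h1, h2⟩ := toDer hA fL (χ := χ.comp (φ : UniversalEnvelopingAlgebra F L →ₐ[F]
        UniversalEnvelopingAlgebra F H)) (θ := θ.comp (φ : UniversalEnvelopingAlgebra F L →ₐ[F]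
        UniversalEnvelopingAlgebra F H)) (fun x => by
          rw [aeval_sub']
          exact congrArg₂ (· - ·) (char_phi hL hw φ hbar hθ x).symm
            (char_phi hL hw φ hbar hχ x).symm) hβ'
  have h3 : IsDer χ θ (δ' ∘ₗ φ.symm.toLinearMap) := by
    intro u v
    have e := h1 (φ.symm u) (φ.symm v)
    have e1 : (χ.comp (φ : UniversalEnvelopingAlgebra F L →ₐ[F]
        UniversalEnvelopingAlgebra F H)) (φ.symm u) = χ u :=
      congrArg χ (φ.apply_symm_apply u)
    have e2 : (θ.comp (φ : UniversalEnvelopingAlgebra F L →ₐ[F]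
        UniversalEnvelopingAlgebra F H)) (φ.symm v) = θ v :=
      congrArg θ (φ.apply_symm_apply v)
    rw [e1, e2, ← map_mul] at e
    exact e
  obtain ⟨β, h4, h5⟩ := fromDer fH (κ := fun i => b i - a i)
    (fun x => by rw [aeval_sub', hχ, hθ]) h3
  refine ⟨_, β, h3, fun x => ?_, h5, h4⟩
  have e : φ.symm (φ (UniversalEnvelopingAlgebra.ι F x)) = UniversalEnvelopingAlgebra.ι F x := φ.symm_apply_apply _
  show δ' (φ.symm (φ (UniversalEnvelopingAlgebra.ι F x))) = _
  rw [e]
  exact h2 x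

end transfer

end Pool.Agent.U669.EM
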