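import Pool.Agent.U669.EM.C0

set_option autoImplicit false

open MvPolynomial

namespace Pool.Agent.U669.EM

open Pool.Agent.U337.EM

attribute [local instance 100] LieRing.ofAssociativeRing

section dual

variable {F : Type} [Field F] {d : ℕ}

/-- dual numbers over the polynomial ring -/
abbrev DS (F : Type) [Field F] (d : ℕ) : Type := DualNumber (Sy F d)

theorem fst_aeval (κ : Fin d → DS F d) (p : Sy F d) :
    (aeval κ p).fst = aeval (fun i => (κ i).fst) p := by
  have := comp_aeval_apply (R := F) (f := κ) (TrivSqZeroExt.fstHom F (Sy F d) (Sy F d)) p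
  exact this

theorem snd_aeval (κ : Fin d → DS F d) (p : Sy F d) :
    (aeval κ p).snd = ∑ k, aeval (fun i => (κ i).fst) (pderiv k p) * (κ k).snd := by
  induction p using MvPolynomial.induction_on with
  | C a =>
    rw [aeval_C]
    have e : (algebraMap F (DS F d) a).snd = 0 := rfl
    rw [e]
    simp
  | add p q hp hq =>
    rw [map_add, TrivSqZeroExt.snd_add, hp, hq, ← Finset.sum_add_distrib]
    exact Finset.sum_congr rfl fun k _ => by rw [map_add, map_add, add_mul]
  | mul_X p n hp =>
    rw [map_mul, aeval_X, DualNumber.snd_mul, hp, fst_aeval]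
    have : ∀ k, aeval (fun i => (κ i).fst) (pderiv k (p * X n)) * (κ k).snd =
        aeval (fun i => (κ i).fst) (pderiv k p) * (κ k).snd * (κ n).fst +
          aeval (fun i => (κ i).fst) p * (if k = n then (κ k).snd else 0) := by
      intro k
      rw [pderiv_mul, map_add, map_mul, map_mul, aeval_X, pderiv_X]
      by_cases h : k = n
      · subst h
        simp
        ring
      · simp [h, Ne.symm h]
        ring
    simp only [this]
    rw [Finset.sum_add_distrib, ← Finset.sum_mul, ← Finset.mul_sum]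
    simp
    ring

/-- two copies of a module -/
def E2 (M : Type) : Type := M × M

variable {M : Type} [AddCommGroup M] [Module F M] [Module (Sy F d) M] [IsScalarTower F (Sy F d) M]

instance : AddCommGroup (E2 M) := inferInstanceAs (AddCommGroup (M × M))

instance : Module F (E2 M) := inferInstanceAs (Module F (M × M))

noncomputable instance instDS : Module (DS F d) (E2 M) where
  smul b p := (b.fst • p.1, b.fst • p.2 + b.snd • p.1)
  one_smul p := by
    show ((1 : DS F d).fst • p.1, (1 : DS F d).fst • p.2 + (1 : DS F d).snd • p.1) = (p.1, p.2)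
    simp
  mul_smul b c p := by
    show ((b * c).fst • p.1, (b * c).fst • p.2 + (b * c).snd • p.1) =
      (b.fst • (c.fst • p.1), b.fst • (c.fst • p.2 + c.snd • p.1) + b.snd • (c.fst • p.1))
    rw [TrivSqZeroExt.fst_mul, DualNumber.snd_mul]
    ext
    · simp [mul_smul]
    · simp [mul_smul, add_smul, smul_add]
      abel
  smul_zero b := by
    show (b.fst • (0 : M), b.fst • (0 : M) + b.snd • (0 : M)) = (0, 0)
    simp
  smul_add b p q := by
    show (b.fst • (p.1 + q.1), b.fst • (p.2 + q.2) + b.snd • (p.1 + q.1)) =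
      (b.fst • p.1 + b.fst • q.1, (b.fst • p.2 + b.snd • p.1) + (b.fst • q.2 + b.snd • q.1))
    ext
    · simp
    · simp
      abel
  add_smul b c p := by
    show ((b + c).fst • p.1, (b + c).fst • p.2 + (b + c).snd • p.1) =
      (b.fst • p.1 + c.fst • p.1, (b.fst • p.2 + b.snd • p.1) + (c.fst • p.2 + c.snd • p.1))
    ext
    · simp [add_smul]
    · simp [add_smul]
      abel
  zero_smul p := by
    show ((0 : DS F d).fst • p.1, (0 : DS F d).fst • p.2 + (0 : DS F d).snd • p.1) = (0, 0)
    simp

theorem ds_smul (b : DS F d) (p : E2 M) :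
    b • p = ((b.fst • p.1, b.fst • p.2 + b.snd • p.1) : M × M) := rfl

instance : IsScalarTower F (DS F d) (E2 M) where
  smul_assoc r b p := by
    show ((r • b).fst • p.1, (r • b).fst • p.2 + (r • b).snd • p.1) =
      (r • (b.fst • p.1), r • (b.fst • p.2 + b.snd • p.1))
    simp [smul_add]

/-- first component -/
def p1 : E2 M →ₗ[F] M := LinearMap.fst F M M

/-- second component -/
def p2 : E2 M →ₗ[F] M := LinearMap.snd F M M

/-- inclusion -/
def j1 : M →ₗ[F] E2 M := LinearMap.inl F M M

theorem p1_smul (b : DS F d) (p : E2 M) : p1 (F := F) (b • p) = b.fst • p1 (F := F) p := rfl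

theorem p2_smul (b : DS F d) (p : E2 M) :
    p2 (F := F) (b • p) = b.fst • p2 (F := F) p + b.snd • p1 (F := F) p := rfl

/-- the map to the dual numbers given by a linear form -/
noncomputable def P2 (pr : M →ₗ[Sy F d] Sy F d) : E2 M →ₗ[F] DS F d where
  toFun p := TrivSqZeroExt.inl (pr p.1) + TrivSqZeroExt.inr (pr p.2)
  map_add' p q := by
    show TrivSqZeroExt.inl (pr (p.1 + q.1)) + TrivSqZeroExt.inr (pr (p.2 + q.2)) = _
    rw [map_add, map_add, TrivSqZeroExt.inl_add, TrivSqZeroExt.inr_add]
    abel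
  map_smul' r p := by
    show TrivSqZeroExt.inl (pr (r • p.1)) + TrivSqZeroExt.inr (pr (r • p.2)) =
      r • (TrivSqZeroExt.inl (pr p.1) + TrivSqZeroExt.inr (pr p.2) : DS F d)
    have e : ∀ m : M, pr (r • m) = r • pr m := fun m => by
      rw [← algebraMap_smul (Sy F d) r m, map_smul, algebraMap_smul]
    rw [e, e]
    ext <;> simp

theorem P2_fst (pr : M →ₗ[Sy F d] Sy F d) (p : E2 M) : (P2 pr p).fst = pr (p1 (F := F) p) := by
  show (TrivSqZeroExt.inl (pr p.1) + TrivSqZeroExt.inr (pr p.2) : DS F d).fst = _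
  rw [TrivSqZeroExt.fst_add, TrivSqZeroExt.fst_inl, TrivSqZeroExt.fst_inr, add_zero]
  rfl

theorem P2_snd (pr : M →ₗ[Sy F d] Sy F d) (p : E2 M) : (P2 pr p).snd = pr (p2 (F := F) p) := by
  show (TrivSqZeroExt.inl (pr p.1) + TrivSqZeroExt.inr (pr p.2) : DS F d).snd = _
  rw [TrivSqZeroExt.snd_add, TrivSqZeroExt.snd_inl, TrivSqZeroExt.snd_inr, zero_add]
  rfl

theorem P2_smul (pr : M →ₗ[Sy F d] Sy F d) (b : DS F d) (p : E2 M) :
    P2 pr (b • p) = b • P2 pr p := by
  refine TrivSqZeroExt.ext ?_ ?_
  · rw [smul_eq_mul, TrivSqZeroExt.fst_mul, P2_fst, P2_fst, p1_smul, map_smul, smul_eq_mul]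
  · rw [smul_eq_mul, DualNumber.snd_mul, P2_snd, P2_snd, P2_fst, p2_smul, map_add, map_smul,
      map_smul, smul_eq_mul, smul_eq_mul]

end dual

end Pool.Agent.U669.EM
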